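import Mathlib

/-!
# Product intersection sets of infinite groups

Every infinite group `G` has a decreasing, not eventually constant sequence of subsets whose
product intersection set is neither `{1}` nor the set of all positive integers.

Let `U` be a nonprincipal ultrafilter on `G`. We choose a sequence `t n` so that every word of
length three in `t n` and the previous elements that takes an old value is `U`-almost everywhere
constant as a function of `t n`. If the cubes are `U`-almost everywhere constant, the tails of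
`t` have product intersection set containing `2` but not `3`; otherwise the tails of the
sequence of the sets `{t n, (t n)⁻¹}` have product intersection set containing `3` but not `2`.
-/

set_option autoImplicit false

open Filter Set
open scoped Pointwise

universe u

namespace Pool.Agent.Results.MP_1adc52_al.InfiniteGroups

/-- asymptotically strictly decreasing sequences of sets -/
def AsympStrict {G : Type u} (A : ℕ → Set G) : Prop :=
  (∀ q, A (q + 1) ⊆ A q) ∧ ∀ N, ∃ q ≥ N, A (q + 1) ≠ A q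

/-- the product intersection set of a sequence -/
def HSet {G : Type u} [Group G] (A : ℕ → Set G) : Set ℕ :=
  {h | 1 ≤ h ∧ (⋂ q, A q) ^ h = ⋂ q, (A q) ^ h}

section

variable {G : Type u} [Group G]

/-- `x` or its inverse -/
def ev (b : Bool) (x : G) : G := if b then x else x⁻¹

/-- the letters: the variable, the elements of `F`, and their inverses -/
def ltr (F : Set G) : Set (G → G) :=
  {f | (∃ b, f = ev b) ∨ ∃ a ∈ F, ∃ b, f = fun _ => ev b a}

/-- the constants: the elements of `F` and their inverses -/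
def cst (F : Set G) : Set G := {p | ∃ a ∈ F, ∃ b, p = ev b a}

lemma ltr_finite {F : Set G} (hF : F.Finite) : (ltr F).Finite := by
  have h1 : (Set.range (ev : Bool → G → G)).Finite := Set.finite_range _
  have h2 : (Set.image2 (fun (a : G) (b : Bool) => (fun _ : G => ev b a)) F Set.univ).Finite :=
    hF.image2 _ Set.finite_univ
  refine (h1.union h2).subset ?_
  rintro f (⟨b, rfl⟩ | ⟨a, ha, b, rfl⟩)
  · exact Or.inl ⟨b, rfl⟩
  · exact Or.inr ⟨a, ha, b, Set.mem_univ _, rfl⟩

lemma cst_finite {F : Set G} (hF : F.Finite) : (cst F).Finite := by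
  have h2 : (Set.image2 (fun (a : G) (b : Bool) => ev b a) F Set.univ).Finite :=
    hF.image2 _ Set.finite_univ
  refine h2.subset ?_
  rintro f ⟨a, ha, b, rfl⟩
  exact ⟨a, ha, b, Set.mem_univ _, rfl⟩

lemma cst_mono {F F' : Set G} (h : F ⊆ F') : cst F ⊆ cst F' := by
  rintro p ⟨a, ha, b, rfl⟩
  exact ⟨a, h ha, b, rfl⟩

/-- the condition on the next element of the sequence -/
def Good (U : Ultrafilter G) (S F : Set G) (x : G) : Prop :=
  x ∈ S ∧ ∀ f1 ∈ ltr F, ∀ f2 ∈ ltr F, ∀ f3 ∈ ltr F, ∀ k1 ∈ cst F, ∀ k2 ∈ cst F, ∀ k3 ∈ cst F,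
    f1 x * f2 x * f3 x = k1 * k2 * k3 → ∀ᶠ z in U, f1 z * f2 z * f3 z = k1 * k2 * k3

lemma exists_good (U : Ultrafilter G) {S F : Set G} (hS : S ∈ U) (hF : F.Finite) :
    ∃ x, Good U S F x := by
  have hl := ltr_finite hF
  have hc := cst_finite hF
  have h : ∀ᶠ x in (U : Filter G), Good U S F x := by
    refine Filter.Eventually.and hS ?_
    rw [Filter.eventually_all_finite hl]
    intro f1 _
    rw [Filter.eventually_all_finite hl]
    intro f2 _
    rw [Filter.eventually_all_finite hl]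
    intro f3 _
    rw [Filter.eventually_all_finite hc]
    intro k1 _
    rw [Filter.eventually_all_finite hc]
    intro k2 _
    rw [Filter.eventually_all_finite hc]
    intro k3 _
    by_cases h : ∀ᶠ z in (U : Filter G), f1 z * f2 z * f3 z = k1 * k2 * k3
    · exact Filter.Eventually.of_forall fun _ _ => h
    · rw [← Ultrafilter.eventually_not] at h
      filter_upwards [h] with x hx hx'
      exact absurd hx' hx
  exact h.exists

lemma exists_seq (U : Ultrafilter G) {S : Set G} (hS : S ∈ U) :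
    ∃ (t : ℕ → G) (F : ℕ → Set G), Monotone F ∧ (1 : G) ∈ F 0 ∧ (∀ n, t n ∈ F (n + 1)) ∧
      ∀ n, Good U S (F n) (t n) := by
  classical
  have hfin : ∀ F : Finset G, ({x | x ∈ F} : Set G).Finite := fun F => F.finite_toSet
  choose pick hpick using fun F : Finset G => exists_good U hS (hfin F)
  let Sn : ℕ → Finset G := fun n => Nat.rec {1} (fun _ F => insert (pick F) F) n
  have hs : ∀ n, Sn (n + 1) = insert (pick (Sn n)) (Sn n) := fun n => rfl
  refine ⟨fun n => pick (Sn n), fun n => {x | x ∈ Sn n}, ?_, ?_, ?_, ?_⟩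
  · refine monotone_nat_of_le_succ fun n => ?_
    intro x hx
    show x ∈ Sn (n + 1)
    rw [hs]
    exact Finset.mem_insert_of_mem hx
  · show (1 : G) ∈ ({1} : Finset G)
    simp
  · intro n
    show pick (Sn n) ∈ Sn (n + 1)
    rw [hs]
    exact Finset.mem_insert_self _ _
  · intro n
    exact hpick (Sn n)

lemma ev_const {U : Ultrafilter G} (hU : ∀ g : G, ¬ ∀ᶠ z in U, z = g) (b : Bool) (g : G) :
    ¬ ∀ᶠ z in U, ev b z = g := by
  intro h
  cases b
  · apply hU g⁻¹
    filter_upwards [h] with z hz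
    rw [← hz, ev]
    simp
  · apply hU g
    filter_upwards [h] with z hz
    rw [← hz, ev]
    simp

lemma ev_inj {b : Bool} {x y : G} (h : ev b x = ev b y) : x = y := by
  cases b
  · simpa [ev] using h
  · simpa [ev] using h

section seq

variable {U : Ultrafilter G} {S : Set G} {t : ℕ → G} {F : ℕ → Set G}

/-- the letter of index `j` at the stage `n` -/
noncomputable def L (t : ℕ → G) (b : Bool) (j n : ℕ) : G → G :=
  if j = n then ev b else fun _ => ev b (t j)

omit [Group G] in
lemma mem_F (hF : Monotone F) (ht : ∀ n, t n ∈ F (n + 1)) {j n : ℕ} (h : j < n) : t j ∈ F n :=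
  hF h (ht j)

lemma L_mem (hF : Monotone F) (ht : ∀ n, t n ∈ F (n + 1)) (b : Bool) {j n : ℕ} (h : j ≤ n) :
    L t b j n ∈ ltr (F n) := by
  rw [L]
  split_ifs with hj
  · exact Or.inl ⟨b, rfl⟩
  · exact Or.inr ⟨t j, mem_F hF ht (lt_of_le_of_ne h hj), b, rfl⟩

lemma L_apply (b : Bool) (j n : ℕ) : L t b j n (t n) = ev b (t j) := by
  rw [L]
  split_ifs with hj
  · rw [hj]
  · rfl

lemma one_mem_cst (hF : Monotone F) (h1 : (1 : G) ∈ F 0) (n : ℕ) : (1 : G) ∈ cst (F n) :=
  ⟨1, hF (Nat.zero_le n) h1, true, rfl⟩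

lemma one_mem_ltr (hF : Monotone F) (h1 : (1 : G) ∈ F 0) (n : ℕ) :
    (fun _ => (1 : G)) ∈ ltr (F n) :=
  Or.inr ⟨1, hF (Nat.zero_le n) h1, true, rfl⟩

lemma seq_inj (hU : ∀ g : G, ¬ ∀ᶠ z in U, z = g) (hF : Monotone F) (h1 : (1 : G) ∈ F 0)
    (ht : ∀ n, t n ∈ F (n + 1)) (hg : ∀ n, Good U S (F n) (t n)) : Function.Injective t := by
  have key : ∀ m n, m < n → t m ≠ t n := by
    intro m n hmn h
    have h2 := (hg n).2 (ev true) (Or.inl ⟨true, rfl⟩) _ (one_mem_ltr hF h1 n) _
      (one_mem_ltr hF h1 n) (t m) ⟨t m, mem_F hF ht hmn, true, rfl⟩ 1 (one_mem_cst hF h1 n) 1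
      (one_mem_cst hF h1 n) (by simp [ev, h])
    apply ev_const hU true (t m)
    filter_upwards [h2] with z hz
    simpa using hz
  intro m n h
  rcases lt_trichotomy m n with h' | h' | h'
  · exact absurd h (key m n h')
  · exact h'
  · exact absurd h.symm (key n m h')

end seq

lemma step {U : Ultrafilter G} {S : Set G} {t : ℕ → G} {F : ℕ → Set G}
    (hF : Monotone F) (hg : ∀ n, Good U S (F n) (t n)) {g : G} {N : ℕ}
    (hN : ∃ k1 ∈ cst (F N), ∃ k2 ∈ cst (F N), ∃ k3 ∈ cst (F N), g = k1 * k2 * k3)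
    {n : ℕ} (hn : N ≤ n) {f1 f2 f3 : G → G} (h1 : f1 ∈ ltr (F n)) (h2 : f2 ∈ ltr (F n))
    (h3 : f3 ∈ ltr (F n)) (h : f1 (t n) * f2 (t n) * f3 (t n) = g) :
    ∀ᶠ z in U, f1 z * f2 z * f3 z = g := by
  obtain ⟨k1, hk1, k2, hk2, k3, hk3, rfl⟩ := hN
  have hm := cst_mono (hF hn)
  exact (hg n).2 f1 h1 f2 h2 f3 h3 k1 (hm hk1) k2 (hm hk2) k3 (hm hk3) h

omit [Group G] in
lemma not_const_of_empty {A : ℕ → Set G} (hA : ∀ q, A (q + 1) ⊆ A q) (hne : ∀ q, (A q).Nonempty)
    (he : (⋂ q, A q) = ∅) : AsympStrict A := by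
  refine ⟨hA, fun N => ?_⟩
  by_contra hcon
  push Not at hcon
  have h1 : ∀ m, A (N + m) = A N := by
    intro m
    induction m with
    | zero => rfl
    | succ m ih => rw [← add_assoc, hcon (N + m) (by omega), ih]
  have hanti : Antitone A := antitone_nat_of_succ_le hA
  obtain ⟨x, hx⟩ := hne N
  have : x ∈ ⋂ q, A q := by
    rw [Set.mem_iInter]
    intro q
    rcases le_total q N with h | h
    · exact hanti h hx
    · obtain ⟨m, rfl⟩ := Nat.exists_eq_add_of_le h
      rw [h1]
      exact hx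
  rw [he] at this
  exact this

lemma mem_HSet {A : ℕ → Set G} (he : (⋂ q, A q) = ∅) {h : ℕ} (hh : 1 ≤ h) :
    h ∈ HSet A ↔ (⋂ q, (A q) ^ h) = ∅ := by
  constructor
  · rintro ⟨_, h2⟩
    rw [← h2, he, Set.empty_pow (by omega)]
  · intro h2
    refine ⟨hh, ?_⟩
    rw [h2, he, Set.empty_pow (by omega)]

/-- the tails with signs in `B` -/
def tail (t : ℕ → G) (B : Set Bool) (q : ℕ) : Set G := {x | ∃ j ≥ q, ∃ b ∈ B, x = ev b (t j)}

lemma tail_succ (t : ℕ → G) (B : Set Bool) (q : ℕ) : tail t B (q + 1) ⊆ tail t B q := by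
  rintro x ⟨j, hj, b, hb, rfl⟩
  exact ⟨j, by omega, b, hb, rfl⟩

section tails

variable {U : Ultrafilter G} {S : Set G} {t : ℕ → G} {F : ℕ → Set G} {B : Set Bool}

lemma iInter_tail (hU : ∀ g : G, ¬ ∀ᶠ z in U, z = g) (hF : Monotone F) (h1 : (1 : G) ∈ F 0)
    (ht : ∀ n, t n ∈ F (n + 1)) (hg : ∀ n, Good U S (F n) (t n)) :
    (⋂ q, tail t B q) = ∅ := by
  rw [Set.eq_empty_iff_forall_notMem]
  intro g hmem
  rw [Set.mem_iInter] at hmem
  obtain ⟨i, _, c, _, hi⟩ := hmem 0
  obtain ⟨j, hj, b, _, hb⟩ := hmem (i + 1)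
  have := step hF hg (g := g) (N := i + 1) ⟨g, ⟨t i, ht i, c, hi⟩, 1, one_mem_cst hF h1 _, 1,
    one_mem_cst hF h1 _, by simp⟩ hj (f1 := ev b) (Or.inl ⟨b, rfl⟩) (one_mem_ltr hF h1 j)
    (one_mem_ltr hF h1 j) (by simp [hb])
  apply ev_const hU b g
  filter_upwards [this] with z hz
  simpa using hz

lemma case_one (hU : ∀ g : G, ¬ ∀ᶠ z in U, z = g) (hF : Monotone F) (h1 : (1 : G) ∈ F 0)
    (ht : ∀ n, t n ∈ F (n + 1)) {c : G} (hc : {x : G | x ^ 3 = c} ∈ U)
    (hg : ∀ n, Good U {x : G | x ^ 3 = c} (F n) (t n)) :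
    (⋂ q, (tail t {true} q) ^ 2) = ∅ := by
  rw [Set.eq_empty_iff_forall_notMem]
  intro g hmem
  rw [Set.mem_iInter] at hmem
  have hrep : ∀ q, ∃ i ≥ q, ∃ j ≥ q, g = t i * t j := by
    intro q
    have := hmem q
    rw [pow_two, Set.mem_mul] at this
    obtain ⟨x, ⟨i, hi, b, hb, rfl⟩, y, ⟨j, hj, b', hb', rfl⟩, hxy⟩ := this
    rw [Set.mem_singleton_iff] at hb hb'
    subst hb
    subst hb'
    exact ⟨i, hi, j, hj, hxy.symm⟩
  obtain ⟨i0, _, j0, _, h0⟩ := hrep 0
  obtain ⟨i, hi, j, hj, hij⟩ := hrep (max i0 j0 + 1)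
  have hN : ∃ k1 ∈ cst (F (max i0 j0 + 1)), ∃ k2 ∈ cst (F (max i0 j0 + 1)),
      ∃ k3 ∈ cst (F (max i0 j0 + 1)), g = k1 * k2 * k3 :=
    ⟨t i0, ⟨t i0, mem_F hF ht (by omega), true, rfl⟩, t j0,
      ⟨t j0, mem_F hF ht (by omega), true, rfl⟩, 1, one_mem_cst hF h1 _, by simp [h0]⟩
  have hst := step hF hg hN (n := max i j) (by omega)
    (L_mem hF ht true (le_max_left i j)) (L_mem hF ht true (le_max_right i j))
    (one_mem_ltr hF h1 _) (by simp [L_apply, ev, hij])
  by_cases hi' : i = max i j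
  · by_cases hj' : j = max i j
    · apply hU (g⁻¹ * c)
      filter_upwards [hst, hc] with z hz hz3
      rw [L, L, if_pos hi', if_pos hj'] at hz
      simp only [ev, if_true, mul_one] at hz
      have hz3' : z ^ 3 = c := hz3
      rw [← hz3', ← hz]
      group
    · apply hU (g * (t j)⁻¹)
      filter_upwards [hst] with z hz
      rw [L, L, if_pos hi', if_neg hj'] at hz
      simp only [ev, if_true, mul_one] at hz
      rw [← hz]
      group
  · have hj' : j = max i j := by omega
    apply hU ((t i)⁻¹ * g)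
    filter_upwards [hst] with z hz
    rw [L, L, if_neg hi', if_pos hj'] at hz
    simp only [ev, if_true, mul_one] at hz
    rw [← hz]
    group

omit [Group G] in
lemma sub_finite (hU' : Function.Injective t) (w : G → G → G)
    (hw : ∀ z, Function.Injective (w z)) (g : G) :
    {j | ∀ᶠ z in U, w z (t j) = g}.Finite := by
  apply Set.Subsingleton.finite
  intro i hi j hj
  obtain ⟨z, hz1, hz2⟩ := (Filter.Eventually.and hi hj).exists
  exact hU' (hw z (hz1.trans hz2.symm))

lemma case_two (hU : ∀ g : G, ¬ ∀ᶠ z in U, z = g) (hF : Monotone F) (h1 : (1 : G) ∈ F 0)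
    (ht : ∀ n, t n ∈ F (n + 1)) (hc : ∀ c : G, ¬ ∀ᶠ z in U, z * z * z = c)
    (hg : ∀ n, Good U S (F n) (t n)) :
    (⋂ q, (tail t Set.univ q) ^ 3) = ∅ := by
  rw [Set.eq_empty_iff_forall_notMem]
  intro g hmem
  rw [Set.mem_iInter] at hmem
  have hinj := seq_inj hU hF h1 ht hg
  have hrep : ∀ q, ∃ i ≥ q, ∃ j ≥ q, ∃ k ≥ q, ∃ b1 b2 b3,
      g = ev b1 (t i) * ev b2 (t j) * ev b3 (t k) := by
    intro q
    have := hmem q
    rw [show 3 = 2 + 1 by rfl, pow_succ, pow_two, Set.mem_mul] at this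
    obtain ⟨x, hx, y, ⟨k, hk, b3, _, rfl⟩, hxy⟩ := this
    rw [Set.mem_mul] at hx
    obtain ⟨x1, ⟨i, hi, b1, _, rfl⟩, x2, ⟨j, hj, b2, _, rfl⟩, hx⟩ := hx
    exact ⟨i, hi, j, hj, k, hk, b1, b2, b3, by rw [← hxy, ← hx]⟩
  -- the bad indices
  have hfin : ({j | ∃ b1 b2 b3 : Bool, (∀ᶠ z in U, ev b1 z * ev b2 z * ev b3 (t j) = g) ∨
      (∀ᶠ z in U, ev b1 z * ev b2 (t j) * ev b3 z = g) ∨
      (∀ᶠ z in U, ev b1 (t j) * ev b2 z * ev b3 z = g)} : Set ℕ).Finite := by
    have e : ({j | ∃ b1 b2 b3 : Bool, (∀ᶠ z in U, ev b1 z * ev b2 z * ev b3 (t j) = g) ∨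
      (∀ᶠ z in U, ev b1 z * ev b2 (t j) * ev b3 z = g) ∨
      (∀ᶠ z in U, ev b1 (t j) * ev b2 z * ev b3 z = g)} : Set ℕ) =
        ⋃ b1 : Bool, ⋃ b2 : Bool, ⋃ b3 : Bool,
          ({j | ∀ᶠ z in U, ev b1 z * ev b2 z * ev b3 (t j) = g} ∪
          ({j | ∀ᶠ z in U, ev b1 z * ev b2 (t j) * ev b3 z = g} ∪
          {j | ∀ᶠ z in U, ev b1 (t j) * ev b2 z * ev b3 z = g})) := by
      ext j
      simp only [Set.mem_ofPred_eq, Set.mem_iUnion, Set.mem_union]
    rw [e]
    refine Set.finite_iUnion fun b1 => Set.finite_iUnion fun b2 => Set.finite_iUnion fun b3 => ?_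
    refine (sub_finite hinj (fun z x => ev b1 z * ev b2 z * ev b3 x) ?_ g).union
      ((sub_finite hinj (fun z x => ev b1 z * ev b2 x * ev b3 z) ?_ g).union
      (sub_finite hinj (fun z x => ev b1 x * ev b2 z * ev b3 z) ?_ g))
    · intro z x y hxy
      exact ev_inj (mul_left_cancel hxy)
    · intro z x y hxy
      exact ev_inj (mul_left_cancel (mul_right_cancel hxy))
    · intro z x y hxy
      exact ev_inj (mul_right_cancel (mul_right_cancel hxy))
  obtain ⟨M, hM⟩ := hfin.bddAbove
  obtain ⟨i0, _, j0, _, k0, _, c1, c2, c3, h0⟩ := hrep 0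
  obtain ⟨N, hNdef⟩ : ∃ N, N = max (max i0 j0) k0 + 1 := ⟨_, rfl⟩
  obtain ⟨i, hi, j, hj, k, hk, b1, b2, b3, hijk⟩ := hrep (max N (M + 1))
  have hN : ∃ k1 ∈ cst (F N), ∃ k2 ∈ cst (F N), ∃ k3 ∈ cst (F N), g = k1 * k2 * k3 :=
    ⟨_, ⟨t i0, mem_F hF ht (by omega), c1, rfl⟩, _, ⟨t j0, mem_F hF ht (by omega), c2, rfl⟩,
      _, ⟨t k0, mem_F hF ht (by omega), c3, rfl⟩, h0⟩
  obtain ⟨n, hn⟩ : ∃ n, n = max (max i j) k := ⟨_, rfl⟩
  have hst := step hF hg hN (n := n) (by omega)
    (L_mem hF ht b1 (j := i) (by omega)) (L_mem hF ht b2 (j := j) (by omega))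
    (L_mem hF ht b3 (j := k) (by omega)) (by simp only [L_apply, ← hijk])
  have hbad : ∀ m, M < m → ¬ ∃ b1 b2 b3 : Bool,
      (∀ᶠ z in U, ev b1 z * ev b2 z * ev b3 (t m) = g) ∨
      (∀ᶠ z in U, ev b1 z * ev b2 (t m) * ev b3 z = g) ∨
      (∀ᶠ z in U, ev b1 (t m) * ev b2 z * ev b3 z = g) := by
    intro m hm h
    exact absurd (hM h) (by omega)
  by_cases hi' : i = n
  · by_cases hj' : j = n
    · by_cases hk' : k = n
      · -- three occurrences
        simp only [L, if_pos hi', if_pos hj', if_pos hk'] at hst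
        cases b1 <;> cases b2 <;> cases b3 <;> simp only [ev, if_true, Bool.false_eq_true,
          if_false] at hst
        · apply hc g⁻¹
          filter_upwards [hst] with z hz
          rw [← hz]
          simp only [mul_inv_rev, inv_inv, mul_assoc]
        · apply hU g⁻¹
          filter_upwards [hst] with z hz
          rw [← hz]
          group
        · apply hU g⁻¹
          filter_upwards [hst] with z hz
          rw [← hz]
          group
        · apply hU g
          filter_upwards [hst] with z hz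
          rw [← hz]
          group
        · apply hU g⁻¹
          filter_upwards [hst] with z hz
          rw [← hz]
          group
        · apply hU g
          filter_upwards [hst] with z hz
          rw [← hz]
          group
        · apply hU g
          filter_upwards [hst] with z hz
          rw [← hz]
          group
        · exact hc g hst
      · simp only [L, if_pos hi', if_pos hj', if_neg hk'] at hst
        exact hbad k (by omega) ⟨b1, b2, b3, Or.inl hst⟩
    · by_cases hk' : k = n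
      · simp only [L, if_pos hi', if_neg hj', if_pos hk'] at hst
        exact hbad j (by omega) ⟨b1, b2, b3, Or.inr (Or.inl hst)⟩
      · simp only [L, if_pos hi', if_neg hj', if_neg hk'] at hst
        apply ev_const hU b1 (g * (ev b3 (t k))⁻¹ * (ev b2 (t j))⁻¹)
        filter_upwards [hst] with z hz
        rw [← hz]
        group
  · by_cases hj' : j = n
    · by_cases hk' : k = n
      · simp only [L, if_neg hi', if_pos hj', if_pos hk'] at hst
        exact hbad i (by omega) ⟨b1, b2, b3, Or.inr (Or.inr hst)⟩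
      · simp only [L, if_neg hi', if_pos hj', if_neg hk'] at hst
        apply ev_const hU b2 ((ev b1 (t i))⁻¹ * g * (ev b3 (t k))⁻¹)
        filter_upwards [hst] with z hz
        rw [← hz]
        group
    · have hk' : k = n := by omega
      simp only [L, if_neg hi', if_neg hj', if_pos hk'] at hst
      apply ev_const hU b3 ((ev b2 (t j))⁻¹ * (ev b1 (t i))⁻¹ * g)
      filter_upwards [hst] with z hz
      rw [← hz]
      group

end tails

end

/-- **Every infinite group** (in particular every infinite torsion group) has an asymptotically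
strictly decreasing sequence of subsets whose product intersection set is neither `{1}` nor the
set of all positive integers. -/
theorem result (G : Type u) [Group G] [Infinite G] :
    ∃ A : ℕ → Set G, AsympStrict A ∧ HSet A ≠ {1} ∧ HSet A ≠ {h | 1 ≤ h} := by
  obtain ⟨U, hUle⟩ : ∃ U : Ultrafilter G, (U : Filter G) ≤ Filter.cofinite :=
    ⟨Ultrafilter.of Filter.cofinite, Ultrafilter.of_le _⟩
  have hU : ∀ g : G, ¬ ∀ᶠ z in U, z = g := by
    intro g h
    have h2 : ∀ᶠ z in (U : Filter G), z ≠ g := by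
      apply hUle
      rw [Filter.mem_cofinite]
      refine (Set.finite_singleton g).subset ?_
      intro z hz
      by_contra hne
      exact hz hne
    obtain ⟨z, hz1, hz2⟩ := (Filter.Eventually.and h h2).exists
    exact hz2 hz1
  by_cases hcube : ∃ c : G, ∀ᶠ z in (U : Filter G), z ^ 3 = c
  · obtain ⟨c, hc⟩ := hcube
    have hc' : {x : G | x ^ 3 = c} ∈ U := hc
    obtain ⟨t, F, hF, h1, ht, hg⟩ := exists_seq U hc'
    have he := iInter_tail (B := {true}) hU hF h1 ht hg
    refine ⟨tail t {true}, not_const_of_empty (tail_succ t _)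
      (fun q => ⟨t q, q, le_rfl, true, rfl, rfl⟩) he, ?_, ?_⟩
    · intro h
      have h2 : 2 ∈ HSet (tail t {true}) :=
        (mem_HSet he (by norm_num)).2 (case_one hU hF h1 ht hc' hg)
      rw [h] at h2
      simp at h2
    · intro h
      have h3 : 3 ∈ HSet (tail t {true}) := by
        rw [h]
        show 1 ≤ 3
        norm_num
      rw [mem_HSet he (by norm_num)] at h3
      have : c ∈ ⋂ q, (tail t {true} q) ^ 3 := by
        rw [Set.mem_iInter]
        intro q
        have hq : (t q) ^ 3 = c := (hg q).1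
        rw [← hq]
        exact Set.pow_mem_pow ⟨q, le_rfl, true, rfl, rfl⟩
      rw [h3] at this
      exact this
  · have hc : ∀ c : G, ¬ ∀ᶠ z in (U : Filter G), z * z * z = c := by
      intro c h
      apply hcube
      refine ⟨c, ?_⟩
      filter_upwards [h] with z hz
      rw [← hz, pow_succ, pow_two]
    obtain ⟨t, F, hF, h1, ht, hg⟩ := exists_seq U (Filter.univ_mem (f := (U : Filter G)))
    have he := iInter_tail (B := Set.univ) hU hF h1 ht hg
    refine ⟨tail t Set.univ, not_const_of_empty (tail_succ t _)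
      (fun q => ⟨t q, q, le_rfl, true, trivial, rfl⟩) he, ?_, ?_⟩
    · intro h
      have h2 : 3 ∈ HSet (tail t Set.univ) :=
        (mem_HSet he (by norm_num)).2 (case_two hU hF h1 ht hc hg)
      rw [h] at h2
      simp at h2
    · intro h
      have h3 : 2 ∈ HSet (tail t Set.univ) := by
        rw [h]
        show 1 ≤ 2
        norm_num
      rw [mem_HSet he (by norm_num)] at h3
      have : (1 : G) ∈ ⋂ q, (tail t Set.univ q) ^ 2 := by
        rw [Set.mem_iInter]
        intro q
        rw [pow_two, Set.mem_mul]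
        exact ⟨t q, ⟨q, le_rfl, true, trivial, rfl⟩, (t q)⁻¹, ⟨q, le_rfl, false, trivial, rfl⟩,
          mul_inv_cancel _⟩
      rw [h3] at this
      exact this

end Pool.Agent.Results.MP_1adc52_al.InfiniteGroups
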